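import Pool.Agent.D0H37.DA.Hard

set_option autoImplicit false

/-!
# Affine, linear and local algorithms together cannot tell d-to-1 games of value one from those of
small value

The definitions used in the statement are `DGame`, `DNo` in `Pool/Agent/H589R3/DT/GameDefs.lean`,
`gameCnf` in `Pool/Agent/D0H57/DT1/Cnf.lean`, `IsProof`, `Refutes`, `Step` in
`Pool/Agent/D0H57/DT1/Res.lean`, and `AffineSolution` below.

For all `d ≥ 2` and `ε > 0` there are d-to-1 games with `N + N` vertices and `O(N)` edges of value
less than `ε` which at the same time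

* have an integral affine solution with values in `{-1, 0, 1}`, that is a solution of the linear
  equations which the characteristic functions of a satisfying labelling satisfy. So Gaussian
  elimination over every field (every commutative ring) and the affine integer relaxation accept;
* have exactly `d` right labels above each left label on every edge, so that the uniform
  distributions solve the basic linear relaxation, with full support. So the relaxation
  BLP + AIP accepts;
* are locally consistent on sets of `γ N` vertices, even with the labels at one edge prescribed in any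
  way that satisfies it. So the local consistency algorithm of level `γ N - 2` removes no label and
  no pair of labels of an edge, and local consistency followed by BLP + AIP accepts;
* have no resolution refutation with fewer than `2 ^ (γ N)` clauses.

Idea of the proof. `R = p` is a large prime, a right label is a pair `(x, j)` of an element `x` of
`ℤ/p` and a number `j < d`, and the constraint on the `i`-th edge at a right vertex is
`label v = σ (x - i j)` with a permutation `σ` of `ℤ/p` which preserves a function `h` with values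
`1`, `-1` and sum `1`. Then `x_v = h` and `y_w (x, j) = h x` for `j = 0`, `y_w (x, j) = 0` for
`j ≠ 0` is an integral affine solution. The group of the permutations which preserve `h` is large
enough (each orbit has at least `(p - 1)/2` elements) for the union bound which shows that the
value is small, and for all choices of the permutations the labels of the ends of long
nonbacktracking walks are independent, because a set of right labels that is closed under two of the
`D` directions is everything. (With random shifts in place of the permutations, as in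
`ResolutionLowerBound`, there is typically no affine solution modulo `p`.)
-/

namespace Pool.Agent.Results.MP_62e2f2_lc.AffineSolutions

open Finset H589DT H589DT.MX Pool.Agent.D0H57.DT1 Pool.Agent.D0H37.DA
open scoped Classical

/-- `x`, `y` is an integral affine solution of the game `I`: integral weights of the left and right
labels of each vertex with sum one, such that for each edge `v w` and each left label `a` the sum of
the weights at `w` of the right labels that are mapped to `a` is the weight of `a` at `v` (if `A`,
`M` is a labelling that satisfies all constraints then the characteristic functions of the labels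
are such weights) -/
def AffineSolution {V W : Type} {d R : ℕ} (I : DGame V W d R) (x : V → Fin R → ℤ)
    (y : W → Fin (d * R) → ℤ) : Prop :=
  (∀ v, ∑ a, x v a = 1) ∧ (∀ w, ∑ b, y w b = 1) ∧
    ∀ v w, I.adj v w → ∀ a, ∑ b ∈ univ.filter (fun b => I.map v w b = a), y w b = x v a

/-- For all `d ≥ 2` and `ε > 0` there are `R ≥ 1`, `Δ` and `γ > 0` such that for all large `N`
there is a d-to-1 game `I` with `N` left and `N` right vertices, left labels `Fin R` and right labels
`Fin (d R)`, of value less than `ε`, in which right vertices have degree at most `Δ`, such that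
* `I` has an integral affine solution with values in `{-1, 0, 1}`;
* on each edge every left label is the image of exactly `d` right labels;
* for each edge `v₀ w₀`, each right label `b` and all sets `S` and `T` of left and right vertices
  with `|S| + |T| ≤ γ N` some labelling, with the label `b` at `w₀`, satisfies all constraints between
  `S ∪ {v₀}` and `T ∪ {w₀}`;
* every resolution refutation `L` of the formula `gameCnf I`, which says that some labelling
  satisfies all constraints, contains a clause with at least `γ N` literals and has at least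
  `2 ^ (γ N)` clauses. -/
theorem result (d : ℕ) (hd : 2 ≤ d) (ε : ℝ) (hε : 0 < ε) :
    ∃ (R Δ : ℕ) (γ : ℝ) (N0 : ℕ), 1 ≤ R ∧ 0 < γ ∧ ∀ N : ℕ, N0 ≤ N →
      ∃ I : DGame (Fin N) (Fin N) d R, DNo ε I ∧
        (∀ w, (univ.filter fun v => I.adj v w).card ≤ Δ) ∧
        (∃ (x : Fin N → Fin R → ℤ) (y : Fin N → Fin (d * R) → ℤ),
          (∀ v a, x v a = -1 ∨ x v a = 0 ∨ x v a = 1) ∧
          (∀ w b, y w b = -1 ∨ y w b = 0 ∨ y w b = 1) ∧ AffineSolution I x y) ∧
        (∀ v w, I.adj v w → ∀ a, (univ.filter fun b => I.map v w b = a).card = d) ∧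
        (∀ v₀ w₀, I.adj v₀ w₀ → ∀ (b : Fin (d * R)) (S T : Finset (Fin N)),
          ((S.card + T.card : ℕ) : ℝ) ≤ γ * N →
          ∃ (A : Fin N → Fin R) (M : Fin N → Fin (d * R)), M w₀ = b ∧
            ∀ v w, (v = v₀ ∨ v ∈ S) → (w = w₀ ∨ w ∈ T) → I.adj v w → I.map v w (M w) = A v) ∧
        ∀ L : List (Finset (((Fin N × Fin R) ⊕ (Fin N × Fin (d * R))) × Bool)),
          Refutes (gameCnf I) L →
          (∃ C ∈ L, γ * N ≤ C.card) ∧ (2 : ℝ) ^ (γ * N) ≤ L.length := by
  obtain ⟨p, m, D, q, n0, hpz, hpm, hq, hgames⟩ := hard_perms d hd ε hε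
  have hp : 1 ≤ p := Nat.one_le_iff_ne_zero.2 hpz.out
  have : NeZero d := ⟨by omega⟩
  have hqr : (1 : ℝ) ≤ q := by exact_mod_cast hq
  have hpr : (1 : ℝ) ≤ p := by exact_mod_cast hp
  refine ⟨p, D, 1 / (32 * q ^ 2 * p * (d + 1)), n0 + 4 * q * (d * p + 3) + 8 * q, hp,
    by positivity, ?_⟩
  intro N hN
  obtain ⟨φ, B, σ, hφ, hσ, hno, hloc, hpre⟩ := hgames N (by omega)
  have hN1 : 1 ≤ N := by omega
  have hNr : (0 : ℝ) < N := by exact_mod_cast hN1
  obtain ⟨γ, hγ⟩ : ∃ γ : ℝ, γ = 1 / (32 * q ^ 2 * p * (d + 1)) := ⟨_, rfl⟩
  rw [← hγ]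
  have hγ0 : 0 < γ := by rw [hγ]; positivity
  -- the level
  obtain ⟨l, hl⟩ : ∃ l, l = N / q := ⟨_, rfl⟩
  have hlN : q * l ≤ N := by rw [hl]; exact Nat.mul_div_le _ _
  have hlN2 : N < q * (l + 1) := by rw [hl]; exact Nat.lt_mul_div_succ N (by omega)
  obtain ⟨F, hF⟩ := hloc l hlN
  -- lower bounds for the level
  have hl1 : d * p + 3 ≤ (l - 1) / 2 := by
    have h1 : 4 * (d * p + 3) + 8 ≤ l + 1 := by
      by_contra hcon
      push Not at hcon
      have h2 : q * (l + 1) ≤ q * (4 * (d * p + 3) + 8) := Nat.mul_le_mul_left _ hcon.le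
      have h3 : q * (4 * (d * p + 3) + 8) = 4 * q * (d * p + 3) + 8 * q := by ring
      omega
    omega
  obtain ⟨T, hT⟩ : ∃ T, T = (l - 1) / 2 := ⟨_, rfl⟩
  rw [← hT] at hl1
  have hT4 : N ≤ 4 * q * T := by
    have h1 : l + 1 ≤ 4 * T := by omega
    calc N ≤ q * (l + 1) := hlN2.le
      _ ≤ q * (4 * T) := Nat.mul_le_mul_left _ h1
      _ = 4 * q * T := by ring
  have hTl : T + T + 1 ≤ l := by omega
  have hlN' : l ≤ N := (Nat.le_mul_of_pos_left l (by omega)).trans hlN
  have hT4r : (N : ℝ) ≤ 4 * q * T := by exact_mod_cast hT4
  have hdr : (0 : ℝ) ≤ d := Nat.cast_nonneg _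
  have hγN : γ * N ≤ T := by
    have h1 : γ * (4 * q) ≤ 1 := by
      rw [hγ, div_mul_eq_mul_div, one_mul, div_le_one (by positivity)]
      have h2 : (q : ℝ) ≤ q ^ 2 := by nlinarith
      have h3 : (1 : ℝ) ≤ p * (d + 1) := by nlinarith
      nlinarith
    calc γ * N ≤ γ * (4 * q * T) := mul_le_mul_of_nonneg_left hT4r hγ0.le
      _ = γ * (4 * q) * T := by ring
      _ ≤ 1 * T := mul_le_mul_of_nonneg_right h1 (Nat.cast_nonneg _)
      _ = T := one_mul _
  have hcardX : Fintype.card ((Fin N × Fin p) ⊕ (Fin N × Fin (d * p))) = N * (p * (d + 1)) := by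
    rw [Fintype.card_sum, Fintype.card_prod, Fintype.card_prod, Fintype.card_fin, Fintype.card_fin,
      Fintype.card_fin]
    ring
  have hwide : ∀ C ∈ gameCnf (pgm d φ B σ), C.card ≤ T :=
    gameCnf_width _ T (by nlinarith) (by omega) (by omega)
  have hnar : ¬ Narrow (gameCnf (pgm d φ B σ)) (T + T) ∅ := pgm_narrow hφ σ F hF hTl
  refine ⟨pgm d φ B σ, hno, ?_, ?_, ?_, ?_, ?_⟩
  · intro w
    have h1 : (univ.filter fun v => (pgm d φ B σ).adj v w) ⊆
        univ.image fun i : Fin D => φ w i := by
      intro v hv
      rw [mem_filter] at hv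
      obtain ⟨_, i, _, hi⟩ := hv
      rw [mem_image]
      exact ⟨i, mem_univ _, hi⟩
    refine (card_le_card h1).trans (card_image_le.trans ?_)
    rw [card_univ, Fintype.card_fin]
  · refine ⟨fun _ => ax p, fun _ => ay p d, ?_, ?_, ?_, ?_, ?_⟩
    · intro v a
      rcases hh_values p ((eV p).symm a) with h | h
      · exact Or.inr (Or.inr h)
      · exact Or.inl h
    · intro w b
      show ay p d b = -1 ∨ ay p d b = 0 ∨ ay p d b = 1
      unfold ay
      split_ifs
      · rcases hh_values p ((eW p d).symm b).1 with h | h
        · exact Or.inr (Or.inr h)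
        · exact Or.inl h
      · exact Or.inr (Or.inl rfl)
    · intro v
      exact ax_sum m hpm
    · intro w
      have h1 : ∀ a : Fin p, ∑ b ∈ univ.filter (fun b => pmap p d 0 (Equiv.refl _) b = a),
          ay p d b = ax p a := fun a => ay_map d (by omega) 0 (Equiv.refl _) (fun _ => rfl) a
      rw [← ax_sum m hpm, ← Finset.sum_congr rfl fun a _ => h1 a]
      exact (Finset.sum_fiberwise (univ : Finset (Fin (d * p)))
        (fun b => pmap p d 0 (Equiv.refl _) b) (ay p d)).symm
    · intro v w hvw a
      obtain ⟨i, hwB, hi⟩ := hvw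
      subst hi
      simp only
      rw [pgm_map hφ σ w i hwB]
      exact ay_map d (by omega) _ (σ w i) (hσ w i) a
  · intro v w _ a
    exact pgm_fib σ v w a
  · intro v₀ w₀ hvw b S T' hST
    obtain ⟨i, hwB, hi⟩ := hvw
    subst hi
    obtain ⟨β, hβ⟩ : ∃ β : ZMod p × Fin d, β = (eW p d).symm b := ⟨_, rfl⟩
    have hcard : (S.image Sum.inl ∪ T'.image Sum.inr : Finset (Fin N ⊕ Fin N)).card ≤ l := by
      refine (card_union_le _ _).trans ?_
      have h1 : ((S.card + T'.card : ℕ) : ℝ) ≤ (T : ℝ) := hST.trans hγN
      have h2 : S.card + T'.card ≤ T := by exact_mod_cast h1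
      have h3 : (S.image Sum.inl : Finset (Fin N ⊕ Fin N)).card ≤ S.card := card_image_le
      have h4 : (T'.image Sum.inr : Finset (Fin N ⊕ Fin N)).card ≤ T'.card := card_image_le
      omega
    obtain ⟨ρ, _, hρ2, hρ⟩ := hpre l (by omega) hlN ⟨(w₀, i), hwB⟩
      (σ w₀ i (lin (((i : ℕ) : ZMod p)) β), β.2) β rfl _ hcard
    refine ⟨fun v => eV p (ρ (Sum.inl v)).1, fun w => eW p d (ρ (Sum.inr w)), ?_, ?_⟩
    · have h1 : ρ (Sum.inr w₀) = β := hρ2
      simp only
      rw [h1, hβ, Equiv.apply_symm_apply]
    · intro v w hv hw hadj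
      obtain ⟨i', hwB', hi'⟩ := hadj
      subst hi'
      simp only
      rw [pgm_map hφ σ w i' hwB']
      have h1 : σ w i' (lin (((i' : ℕ) : ZMod p)) (ρ (Sum.inr w))) =
          (ρ (Sum.inl (φ w i'))).1 := by
        refine hρ ⟨(w, i'), hwB'⟩ ?_ ?_
        · rcases hv with hv | hv
          · exact Or.inr (Or.inl (congrArg Sum.inl hv))
          · exact Or.inl (mem_union_left _ (mem_image_of_mem _ hv))
        · rcases hw with hw | hw
          · exact Or.inr (Or.inr (congrArg Sum.inr hw))
          · exact Or.inl (mem_union_right _ (mem_image_of_mem _ hw))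
      unfold pmap
      rw [Equiv.symm_apply_apply, h1]
  · intro L hL
    constructor
    · by_contra hcon
      push Not at hcon
      refine hnar ((hL.1.narrow (k := T) ?_ ∅ hL.2).mono (by omega))
      intro C hC
      have h1 : (C.card : ℝ) ≤ T := (hcon C hC).le.trans hγN
      exact_mod_cast h1
    · have h1 := size_of_width (gameCnf (pgm d φ B σ)) T (by omega) (by
        rw [hcardX]
        have h2 : N ≤ N * (p * (d + 1)) := Nat.le_mul_of_pos_right N (Nat.mul_pos hp (by omega))
        omega) hwide hnar L hL
      refine le_trans ?_ h1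
      rw [hcardX]
      push_cast
      have h2 : γ * N ≤ (T : ℝ) ^ 2 / (2 * (N * (p * (d + 1)))) := by
        rw [le_div_iff₀ (by positivity)]
        have h3 : γ * N * (2 * (N * (p * (d + 1)))) = N ^ 2 / (16 * q ^ 2) := by
          rw [hγ]
          field_simp
          ring
        rw [h3, div_le_iff₀ (by positivity)]
        calc (N : ℝ) ^ 2 ≤ (4 * q * T) ^ 2 := pow_le_pow_left₀ hNr.le hT4r 2
          _ = (T : ℝ) ^ 2 * (16 * q ^ 2) := by ring
      refine le_trans ?_ (Real.exp_le_exp.2 h2)
      have h4 : (2 : ℝ) ^ (γ * N) = Real.exp (Real.log 2 * (γ * N)) :=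
        Real.rpow_def_of_pos (by norm_num) _
      rw [h4]
      apply Real.exp_le_exp.2
      have h5 : Real.log 2 ≤ 1 := by
        have := Real.log_two_lt_d9
        linarith
      have h6 : 0 ≤ γ * N := by positivity
      nlinarith

end Pool.Agent.Results.MP_62e2f2_lc.AffineSolutions
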