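import Pool.Agent.D0H57.DT1.Par

set_option autoImplicit false

/-!
# d-to-1 games of value one are not hard to tell from those of small value under randomised
constant-depth reductions

The definitions used in the statement are `Right` and `Present` in `Pool/Agent/D0H57/DT1/Par.lean`
and circuits (`Circuit`, `nodeVal`, `nodeDepth`) in `Pool/Agent/H568R2/Defs.lean`.

A reduction from parity to the problem of Khot's conjecture (value one or value less than `ε`), for
any `ε < 1`, any `d` and any number `R` of labels, which is computed by (nonuniform, randomised)
circuits of constant depth with AND, OR and NOT gates needs exponential size, even if it has to be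
right only for two thirds of the pairs of coins and inputs. So for no `ε < 1` and `R` is the problem
hard for `NP`, or even for parity, under `AC0` reductions.

The instances: there is a finite set `K` of potential constraints (for example all triples of a left
vertex, a right vertex and a map from right labels to left labels; but several copies of the same
triple are allowed), and the circuit tells for each of them whether it is present.

Idea of the proof. Let `x` be an input with an odd number of ones such that the answer is right at
`x`. Whenever the answer is also right at the input which arises by flipping bit `i`, the labelling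
which satisfies all constraints there violates more than a fraction `1 - ε` of the constraints at
`x`; so these are gone after the flip. Under a random restriction which leaves many bits free, the
presence of each constraint becomes a decision tree of small depth `s`, so that a present
constraint can disappear for at most `s` of the free bits. So at most `s / (1 - ε)` of the flips of
`x` have right answers. A restriction under which the answer is right for nearly two thirds of the
inputs, on the average weighted with the number of free bits, gives a contradiction.
-/

namespace Pool.Agent.Results.MP_62e2f2_lc.ConstantDepthReductions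

open Finset DomAC0 Pool.Agent.D0H57.DT1
open scoped Classical

/-- For every depth `h` there is `X₀ > 0` with the following property. Let `Ω` be a finite nonempty
set (the coins) and for each `ω ∈ Ω` let `C ω` be a circuit with `N` inputs, with NOT gates and AND
and OR gates of unbounded fan-in, in which nodes `out ω c` of depth at most `h` tell for every
potential constraint `c ∈ K` whether it is present. The potential constraint `c` joins the left
vertex `v c` and the right vertex `w c` and wants the map `π c` to take the right label to the left
label. Let `ε < 1`, and suppose that for at least two thirds of all pairs of `ω ∈ Ω` and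
`x ∈ {0,1}^N` the following holds: if `x` has an even number of ones then some labelling satisfies
all constraints present (value one), and if `x` has an odd number of ones then the set of
constraints present is not empty and every labelling satisfies less than a fraction `ε` of them
(value less than `ε`). If `(1 - ε) N ≥ X₀` then one of the circuits has at least
`2 ^ (((1 - ε) N) ^ (1 / (h + 1)) / 100)` gates. The fibres of the maps `π c` are arbitrary, so this
covers all `d` and all `R`. -/
theorem result (h : ℕ) : ∃ X₀ : ℝ, 0 < X₀ ∧ ∀ (N : ℕ) (Ω : Type) [Fintype Ω] [Nonempty Ω]
    (C : Ω → Circuit (Fin N)) (V W K : Type) [Fintype K] (d R : ℕ) (v : K → V) (w : K → W)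
    (π : K → Fin (d * R) → Fin R) (out : (ω : Ω) → K → Fin N ⊕ Fin (C ω).size) (ε : ℝ), ε < 1 →
    (∀ ω c, (C ω).nodeDepth (out ω c) ≤ h) →
    2 / 3 * (Fintype.card Ω * 2 ^ N : ℝ) ≤
      ((univ.filter fun p : Ω × (Fin N → Bool) =>
        Right v w π ε (Odd (univ.filter fun i => p.2 i = true).card)
          (Present (C p.1) (out p.1) p.2)).card : ℝ) →
    X₀ ≤ (1 - ε) * N →
    ∃ ω, (2 : ℝ) ^ (((1 - ε) * N) ^ (1 / (h + 1 : ℝ)) / 100) ≤ (C ω).size := by
  obtain ⟨X₀, hX0, hX⟩ := par_main h
  refine ⟨X₀, hX0, ?_⟩
  intro N Ω _ _ C V W K _ d R v w π out ε hε hdepth hright hN
  have hex : ∃ ω : Ω, 2 / 3 * (2 ^ N : ℝ) ≤ ((univ.filter fun x : Fin N → Bool =>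
      Right v w π ε (Odd (univ.filter fun i => x i = true).card)
        (Present (C ω) (out ω) x)).card : ℝ) := by
    by_contra hcon
    push Not at hcon
    have h1 : (univ.filter fun p : Ω × (Fin N → Bool) =>
        Right v w π ε (Odd (univ.filter fun i => p.2 i = true).card)
          (Present (C p.1) (out p.1) p.2)).card = ∑ ω : Ω, (univ.filter fun x : Fin N → Bool =>
      Right v w π ε (Odd (univ.filter fun i => x i = true).card)
        (Present (C ω) (out ω) x)).card := by
      simp_rw [card_filter]
      rw [Fintype.sum_prod_type]
    rw [h1] at hright
    push_cast at hright
    have h2 := sum_lt_sum_of_nonempty (univ_nonempty (α := Ω)) fun ω _ => hcon ω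
    rw [sum_const, nsmul_eq_mul, card_univ] at h2
    linarith
  obtain ⟨ω, hω⟩ := hex
  refine ⟨ω, hX (C ω) v w π (out ω) ε hε (hdepth ω) ?_ hN⟩
  unfold Pool.Agent.TH163.AC2.unif
  have hc : (Fintype.card (Fin N → Bool) : ℝ) = 2 ^ N := by
    rw [Fintype.card_fun, Fintype.card_bool, Fintype.card_fin]
    push_cast
    rfl
  have hp : (0 : ℝ) < 2 ^ N := by positivity
  rw [hc, div_le_iff₀ hp]
  have h3 : ∑ x : Fin N → Bool,
      (if Right v w π ε (Odd (univ.filter fun i => x i = true).card) (Present (C ω) (out ω) x)
        then (0 : ℝ) else 1) = 2 ^ N - ((univ.filter fun x : Fin N → Bool =>
      Right v w π ε (Odd (univ.filter fun i => x i = true).card)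
        (Present (C ω) (out ω) x)).card : ℝ) := by
    have h4 : ∀ x : Fin N → Bool, (if Right v w π ε (Odd (univ.filter fun i => x i = true).card)
        (Present (C ω) (out ω) x) then (0 : ℝ) else 1) = 1 -
        (if Right v w π ε (Odd (univ.filter fun i => x i = true).card)
        (Present (C ω) (out ω) x) then (1 : ℝ) else 0) := by
      intro x
      split_ifs <;> norm_num
    rw [sum_congr rfl fun x _ => h4 x, sum_sub_distrib, sum_const, nsmul_eq_mul, mul_one, card_univ,
      hc, card_filter]
    push_cast
    rfl
  rw [h3]
  linarith

end Pool.Agent.Results.MP_62e2f2_lc.ConstantDepthReductions
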