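import Pool.Agent.D0H57.DT1.Low
import Pool.Agent.D0H57.DT1.One

set_option autoImplicit false

/-!
# Resolution cannot tell d-to-1 games of value one from those of small value

The definitions used in the statement are `DGame`, `DNo` in `Pool/Agent/H589R3/DT/GameDefs.lean`,
`gameCnf` in `Pool/Agent/D0H57/DT1/Cnf.lean` and `IsProof`, `Refutes`, `Step` in
`Pool/Agent/D0H57/DT1/Res.lean`.

Khot's conjecture in the model of resolution (and so for backtracking with clause learning, for
local consistency and for dynamic programming, which are simulated by resolution), unconditionally
and with perfect completeness: for all `d ≥ 2` and `ε > 0` there are a number `R` of labels and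
d-to-1 games with `N` left and `N` right vertices and `O(N)` edges of value less than `ε` such that
every resolution refutation of the formula which says that the value is one has at least
`2 ^ (γ N)` clauses, and one of them has at least `γ N` literals; and all subgames with at most
`γ N` vertices have value one. The size of the formula is linear in `N`.

For `d = 1` all this fails, as in the conjecture: if the value of a unique game with `n` vertices is
less than one then there is a refutation with at most `(2 R n + 1) ^ (R + 1)` clauses, all with at
most `R + 1` literals.

Idea of the proof. `R = p` is a large prime, a right label is a pair of an element `x` of `ℤ/p` and a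
number `j < d`, and the constraint on the `i`-th edge at a right vertex is
`label v = x - i j + s` with a shift `s`. For suitable shifts the value is small, and for `d ≥ 2` the
labels of the ends of long nonbacktracking walks are independent. On a graph in which all sets of at
most `δ N` vertices span few edges there is therefore a family of locally consistent labellings of
the sets of at most `γ' N` vertices (`Pool/Agent/H589R3/DT`; there for sets of at most `√N`
vertices). So there are no narrow refutations, and by the theorem of Ben-Sasson and Wigderson, which
is proved in `Pool/Agent/D0H57/DT1/Res.lean`, no short ones.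
-/

namespace Pool.Agent.Results.MP_62e2f2_lc.ResolutionLowerBound

open Finset H589DT Pool.Agent.D0H57.DT1
open scoped Classical

/-- (1) For all `d ≥ 2` and `ε > 0` there are `R ≥ 1`, `Δ` and `γ > 0` such that for all large `N`
there is a d-to-1 game `I` with `N` left and `N` right vertices, left labels `Fin R` and right labels
`Fin (d R)`, of value less than `ε`, in which right vertices have degree at most `Δ`, such that
* for all sets `S` and `T` of left and right vertices with `|S| + |T| ≤ γ N` some labelling
  satisfies all constraints between `S` and `T`;
* every resolution refutation `L` of the formula `gameCnf I`, which says that some labelling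
  satisfies all constraints, contains a clause with at least `γ N` literals and has at least
  `2 ^ (γ N)` clauses.

(2) If no labelling satisfies all constraints of a 1-to-1 game with left labels `Fin R`, `R ≥ 1`,
then there is a resolution refutation of its formula with at most
`(2 R (|V| + |W|) + 1) ^ (R + 1)` clauses, all of them with at most `R + 1` literals. -/
theorem result :
    (∀ (d : ℕ), 2 ≤ d → ∀ ε : ℝ, 0 < ε →
      ∃ (R Δ : ℕ) (γ : ℝ) (N0 : ℕ), 1 ≤ R ∧ 0 < γ ∧ ∀ N : ℕ, N0 ≤ N →
        ∃ I : DGame (Fin N) (Fin N) d R, DNo ε I ∧
          (∀ w, (univ.filter fun v => I.adj v w).card ≤ Δ) ∧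
          (∀ S T : Finset (Fin N), ((S.card + T.card : ℕ) : ℝ) ≤ γ * N →
            ∃ (A : Fin N → Fin R) (M : Fin N → Fin (d * R)), ∀ v ∈ S, ∀ w ∈ T, I.adj v w →
              I.map v w (M w) = A v) ∧
          ∀ L : List (Finset (((Fin N × Fin R) ⊕ (Fin N × Fin (d * R))) × Bool)),
            Refutes (gameCnf I) L →
            (∃ C ∈ L, γ * N ≤ C.card) ∧ (2 : ℝ) ^ (γ * N) ≤ L.length) ∧
    (∀ (R : ℕ), 1 ≤ R → ∀ (V W : Type) [Fintype V] [Fintype W] (I : DGame V W 1 R),
      (¬ ∃ (A : V → Fin R) (M : W → Fin (1 * R)), ∀ v w, I.adj v w → I.map v w (M w) = A v) →
      ∃ L : List (Finset (((V × Fin R) ⊕ (W × Fin (1 * R))) × Bool)), Refutes (gameCnf I) L ∧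
        (∀ C ∈ L, C.card ≤ R + 1) ∧
        L.length ≤ (2 * R * (Fintype.card V + Fintype.card W) + 1) ^ (R + 1)) :=
  ⟨fun d hd ε hε => res_low d hd ε hε, fun _ hR _ _ _ _ I hI => one_short hR I hI⟩

end Pool.Agent.Results.MP_62e2f2_lc.ResolutionLowerBound
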