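import Pool.Agent.D0H37.SG.Val

set_option autoImplicit false

/-!
# d-to-1 games with perfect completeness are easy under random noise on the labels

The definitions used in the statement are `Game`, `Game.perturb`, `AffineSol` in
`Pool/Agent/D0H37/SG/Main.lean`, `noise`, `prob` in `Pool/Agent/D0H37/SG/Core.lean` and `ReadOff` in
`Pool/Agent/D0H37/SG/Pla.lean`.

Khot's conjecture says that it is NP-hard to tell d-to-1 games of value one from those of value less
than `ε`. We consider the semi-random (smoothed) model: an adversary chooses the graph and all the
`d`-to-1 maps, and afterwards the left labels are permuted on each edge independently, with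
probability `η` by a uniform element of a transitive group `G e` of permutations (for instance of
the symmetric group or of the cyclic group of shifts) chosen by the adversary. Let `p` be a prime
divisor of the number `R` of left labels. Consider the linear system modulo `p` in which a label is
replaced by a function on the labels with sum one, and a constraint by the push forward. It has a
solution if the value is one, and Gaussian elimination decides in polynomial time whether it has a
solution. We show that, as soon as the number of edges is at least `C (|V| + |W|)` with
`C = C(d, R, η)`, with probability at least `1 - exp (- (|V| + |W|))`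

* it has no solution, while the value is less than `ε` if the noise rate is large (`η = 1`,
  `R ≥ 4 ^ (1 / ε)`); so the gap problem is easy for these games, on every graph;
* if the game has value one and the noise respects one (hidden) perfect labelling, then this
  labelling can be read off from EVERY solution of the system on all left vertices except for those
  on at most a fraction `δ` of the edges, and one gets a labelling that satisfies at least
  `(1 - δ) |E|` constraints.

Idea of the proof. Count: for fixed values of the unknowns at the right vertices the probability
that the equations of the edges at a left vertex `v` are compatible with some value `x v` which is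
moved by an element of `G e` for each edge `e` at `v` is at most `(1 - η / 2) ^ (deg v - 1)`, since
`x v` and the push forward determine the permutation up to half of the group. As `p` divides `R`, a
vector of sum one is not constant, so is moved; and in the second part it is moved unless it is the
indicator of the hidden label plus a constant.
-/

namespace Pool.Agent.Results.MP_62e2f2_lc.SmoothedGames

open Finset Pool.Agent.D0H37.SG
open scoped Classical

/-- (1) If some labelling satisfies all constraints of a d-to-1 game then its linear system modulo
`p` has a solution.

(2) Let `p` be a prime divisor of `R`, let every left vertex of `g` have an edge, `0 < η ≤ 1`, let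
the groups `G e` be transitive and
`|E| ≥ (2 / η) ((d R log p + 1) |W| + 2 |V|)`. Then the system of the perturbed game has a solution
with probability at most `exp (- (|V| + |W|))`.

(3) If moreover `(1 - η + η / R) ^ ε ≤ 1 / 4` (for instance `η = 1`, `R ^ ε ≥ 4`) and
`|E| ≥ 2 (log (d R) + 1) (|V| + |W|)`, then the value of the perturbed game is at least `ε` with
probability at most `exp (- (|V| + |W|))`.

(4) Let the labelling `L`, `M` satisfy all constraints of `g`, let all elements of `G e` fix the
label `L (left e)` and let `G e` be transitive on the other labels, `δ > 0` and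
`|E| ≥ (2 / (δ η)) ((d R log p + 1) |W| + 3 |V|)`. Then with probability at least
`1 - exp (- (|V| + |W|))` the following holds for the perturbed game and for ALL solutions `x`, `y`
of its system: if the left labels `L'` are read off from `x`, then `L'` and `M` satisfy at least
`(1 - δ) |E|` constraints. (So `L'` together with right labels that are best for `L'` does so.) Left
labels which are read off from `x` always exist if `R ≥ 3`. -/
theorem result :
    (∀ (V W E : Type) (d R p : ℕ) (g : Game V W E d R) (L : V → Fin R) (M : W → Fin (d * R)),
      (∀ e, g.map e (M (g.right e)) = L (g.left e)) → ∃ x y, AffineSol p g x y) ∧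
    (∀ (V W E : Type) [Fintype V] [Fintype W] [Fintype E] (d R p : ℕ), p.Prime → p ∣ R →
      ∀ g : Game V W E d R, Function.Surjective g.left → ∀ η : ℝ, 0 < η → η ≤ 1 →
      ∀ G : E → Subgroup (Equiv.Perm (Fin R)), (∀ e i j, ∃ τ ∈ G e, τ i = j) →
      2 / η * ((d * R * Real.log p + 1) * Fintype.card W + 2 * Fintype.card V) ≤
        Fintype.card E →
      prob η G {σ | ∃ x y, AffineSol p (g.perturb σ) x y} ≤
        Real.exp (-(Fintype.card V + Fintype.card W))) ∧
    (∀ (V W E : Type) [Fintype V] [Fintype W] [Fintype E] (d R : ℕ), 1 ≤ d → 1 ≤ R →
      ∀ g : Game V W E d R, ∀ η ε : ℝ, 0 < η → η ≤ 1 → (1 - η + η / R) ^ ε ≤ 1 / 4 →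
      ∀ G : E → Subgroup (Equiv.Perm (Fin R)), (∀ e i j, ∃ τ ∈ G e, τ i = j) →
      2 * (Real.log (d * R) + 1) * (Fintype.card V + Fintype.card W) ≤ Fintype.card E →
      prob η G {σ | ∃ (L : V → Fin R) (M : W → Fin (d * R)), ε * Fintype.card E ≤
          ((univ.filter fun e =>
            (g.perturb σ).map e (M (g.right e)) = L (g.left e)).card : ℝ)} ≤
        Real.exp (-(Fintype.card V + Fintype.card W))) ∧
    (∀ (V W E : Type) [Fintype V] [Fintype W] [Fintype E] (d R p : ℕ), p.Prime → p ∣ R →
      ∀ g : Game V W E d R, Function.Surjective g.left →
      ∀ (L : V → Fin R) (M : W → Fin (d * R)),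
      (∀ e, g.map e (M (g.right e)) = L (g.left e)) →
      ∀ η δ : ℝ, 0 < η → η ≤ 1 → 0 < δ → ∀ G : E → Subgroup (Equiv.Perm (Fin R)),
      (∀ e, ∀ τ ∈ G e, τ (L (g.left e)) = L (g.left e)) →
      (∀ e i j, i ≠ L (g.left e) → j ≠ L (g.left e) → ∃ τ ∈ G e, τ i = j) →
      2 / (δ * η) * ((d * R * Real.log p + 1) * Fintype.card W + 3 * Fintype.card V) ≤
        Fintype.card E →
      prob η G {σ | ¬ ∀ x y, AffineSol p (g.perturb σ) x y → ∀ L', ReadOff x L' →
          (1 - δ) * Fintype.card E ≤
            ((univ.filter fun e =>
              (g.perturb σ).map e (M (g.right e)) = L' (g.left e)).card : ℝ)} ≤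
        Real.exp (-(Fintype.card V + Fintype.card W))) ∧
    (∀ (V K : Type) (R : ℕ), 3 ≤ R → ∀ x : V → Fin R → K, ∃ L', ReadOff x L') :=
  ⟨fun _ _ _ _ _ p g L M h => affine_of_labelling p g L M h,
    fun _ _ _ _ _ _ _ _ _ hp hpR g hs _ h0 h1 G hG hE => refute hp hpR g hs h0 h1 G hG hE,
    fun _ _ _ _ _ _ _ _ hd hR g _ _ h0 h1 hκ G hG hE => small_value hd hR g h0 h1 hκ G hG hE,
    fun _ _ _ _ _ _ _ _ _ hp hpR g hs L M hLM _ _ h0 h1 hδ G hfix hG hE =>
      recover hp hpR g hs L M hLM h0 h1 hδ G hfix hG hE,
    fun _ _ _ hR x => exists_readOff hR x⟩

end Pool.Agent.Results.MP_62e2f2_lc.SmoothedGames
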